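import Pool.Agent.Helper83.SU.St

/-! # Project SU, module RN (helper51) -/

set_option autoImplicit false

namespace Pool.Agent.Helper51.SU

open Pool.Agent.Helper83.SU Pool.Agent.Helper83.CK Cardinal Set
universe u

theorem mRN : StRN.{u} := by
  intro α k K hk hK hS
  obtain ⟨g, hg⟩ := hS
  have h1 : ¬ Chang K := by
    intro h
    obtain ⟨A, hA1, hA2, hA3⟩ := h g
    have h2 := hg A hA1 (by rw [← hK]; exact hA3)
    rw [inter_univ, ← hK] at h2
    exact absurd hA2 (not_le.mpr h2)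
  have hγ : #K = #k.ord.ToType := by rw [hK, mk_ord_toType]
  have h3 : Neg α k.ord.ToType := by
    by_contra h
    exact h1 ((equiv_types α k.ord.ToType (by rw [mk_ord_toType]; exact hk) K hγ).2.1.mp h)
  obtain ⟨f, hf⟩ := h3
  obtain ⟨e⟩ : Nonempty (α ≃ (#α).ord.ToType) := by
    rw [← Cardinal.eq, mk_ord_toType]
  refine ⟨fun t => f (e.symm '' t), fun X hX => ?_⟩
  have h4 := hf (e.symm '' X) (by rw [mk_image_eq e.symm.injective, hX, mk_ord_toType])
  rw [eq_univ_iff_forall] at h4 ⊢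
  intro c
  obtain ⟨t, ht, htc⟩ := h4 c
  refine ⟨e '' t, ?_, ?_⟩
  · obtain ⟨h5, h6⟩ := ht
    refine ⟨?_, ?_⟩
    · rintro _ ⟨a, ha, rfl⟩
      obtain ⟨b, hb, hba⟩ := h5 ha
      rw [← hba]
      simpa using hb
    · rw [mk_image_eq e.injective]
      exact h6
  · simp only [← image_comp, Equiv.symm_comp_self, image_id]
    exact htc

end Pool.Agent.Helper51.SU
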